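import Pool.Agent.Lib.MP_6bc78b_nt.GP.H62.Defs7
import Pool.Agent.Lib.MP_6bc78b_nt.GP.Iface

/-! Project GP7, row RAYX: a Dirichlet polynomial on `Re s = 1` and an exponential sum on a ray. -/

set_option autoImplicit false

open Complex Filter Topology MeasureTheory Set

namespace Pool.Agent.Lib.MP_6bc78b_nt.GP.H42

open Pool.Agent.Lib.MP_6bc78b_nt.MS Pool.Agent.Lib.MP_6bc78b_nt.MS.P1
  Pool.Agent.Lib.MP_6bc78b_nt.GP.G7

/-- A power of a point on the ray. -/
theorem ray_cpow (x φ t : ℝ) (h1 : -Real.pi < φ) (h2 : φ ≤ Real.pi) :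
    ((Real.exp (-x) : ℝ) * Complex.exp (φ * I) : ℂ) ^ (-(1 + t * I : ℂ)) =
      Complex.exp (x - φ * I) * (Complex.exp (φ * t) * Complex.exp (x * t * I)) := by
  have e1 : ((Real.exp (-x) : ℝ) * Complex.exp (φ * I) : ℂ) = Complex.exp (-x + φ * I) := by
    rw [Complex.ofReal_exp, ← Complex.exp_add]
    push_cast
    rfl
  rw [e1, Complex.cpow_def_of_ne_zero (Complex.exp_ne_zero _), Complex.log_exp, ← Complex.exp_add,
    ← Complex.exp_add]
  · congr 1
    linear_combination (-(t : ℂ) * φ) * Complex.I_sq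
  · simpa using h1
  · simpa using h2

theorem image_exp_neg : (fun x : ℝ => Real.exp (-x)) '' univ = Ioi (0 : ℝ) := by
  ext y
  simp only [image_univ, mem_range, mem_Ioi]
  constructor
  · rintro ⟨x, rfl⟩
    exact Real.exp_pos _
  · intro hy
    exact ⟨-Real.log y, by rw [neg_neg, Real.exp_log hy]⟩

/-- The finite sum as a Mellin integral. -/
theorem ep_mellin (hG : GAMIStatement) (N : ℕ) (c : ℕ → ℂ) {z : ℂ} (hz : 0 < z.re) :
    Integrable (fun t : ℝ => DP c N t * Complex.Gamma (1 + t * I) * z ^ (-(1 + t * I : ℂ))) ∧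
    EP c N z = (1 / (2 * Real.pi) : ℂ) *
      ∫ t : ℝ, DP c N t * Complex.Gamma (1 + t * I) * z ^ (-(1 + t * I : ℂ)) := by
  have hpow : ∀ n ∈ Finset.Icc 1 N, ∀ t : ℝ, ((n : ℂ) * z) ^ (-(1 + t * I : ℂ)) =
      (n : ℂ) ^ (-(1 + t * I : ℂ)) * z ^ (-(1 + t * I : ℂ)) := by
    intro n hn t
    have hn1 : 1 ≤ n := (Finset.mem_Icc.1 hn).1
    have h0 : (0 : ℝ) < n := by exact_mod_cast hn1
    have h1 : ((n : ℂ)) = ((n : ℝ) : ℂ) := by push_cast; rfl
    rw [h1]
    have hz0 : z ≠ 0 := by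
      rintro rfl
      simp at hz
    have hn0 : (((n : ℝ) : ℂ)) ≠ 0 := Complex.ofReal_ne_zero.2 h0.ne'
    rw [Complex.cpow_def_of_ne_zero (mul_ne_zero hn0 hz0), Complex.cpow_def_of_ne_zero hn0,
      Complex.cpow_def_of_ne_zero hz0, Complex.log_ofReal_mul h0 hz0, ← Complex.exp_add,
      Complex.ofReal_log h0.le, add_mul]
  have hterm : ∀ n ∈ Finset.Icc 1 N,
      Integrable (fun t : ℝ => c n * ((n : ℂ) ^ (-(1 + t * I : ℂ)) * Complex.Gamma (1 + t * I) *
        z ^ (-(1 + t * I : ℂ)))) ∧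
      c n * Complex.exp (-(n * z)) = (1 / (2 * Real.pi) : ℂ) *
        ∫ t : ℝ, c n * ((n : ℂ) ^ (-(1 + t * I : ℂ)) * Complex.Gamma (1 + t * I) *
        z ^ (-(1 + t * I : ℂ))) := by
    intro n hn
    have hn1 : 1 ≤ n := (Finset.mem_Icc.1 hn).1
    have h0 : (0 : ℝ) < n := by exact_mod_cast hn1
    have hre : 0 < ((n : ℂ) * z).re := by
      have h1 : ((n : ℂ)) = ((n : ℝ) : ℂ) := by push_cast; rfl
      rw [h1, Complex.re_ofReal_mul]
      positivity
    obtain ⟨h2, h3⟩ := hG 1 ((n : ℂ) * z) one_pos hre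
    have e : ∀ t : ℝ, Complex.Gamma ((1 : ℝ) + t * I) * ((n : ℂ) * z) ^ (-((1 : ℝ) + t * I : ℂ))
        = (n : ℂ) ^ (-(1 + t * I : ℂ)) * Complex.Gamma (1 + t * I) * z ^ (-(1 + t * I : ℂ)) := by
      intro t
      rw [Complex.ofReal_one, hpow n hn t]
      ring
    refine ⟨(h2.congr (Filter.Eventually.of_forall fun t => e t)).const_mul _, ?_⟩
    rw [h3, VI, integral_const_mul]
    have e2 : ∫ t : ℝ, (fun s : ℂ => Complex.Gamma s * ((n : ℂ) * z) ^ (-s)) ((1 : ℝ) + t * I)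
        = ∫ t : ℝ, (n : ℂ) ^ (-(1 + t * I : ℂ)) * Complex.Gamma (1 + t * I) *
          z ^ (-(1 + t * I : ℂ)) :=
      integral_congr_ae (Filter.Eventually.of_forall fun t => e t)
    rw [e2]
    ring
  have hsum : ∀ t : ℝ, DP c N t * Complex.Gamma (1 + t * I) * z ^ (-(1 + t * I : ℂ)) =
      ∑ n ∈ Finset.Icc 1 N, c n * ((n : ℂ) ^ (-(1 + t * I : ℂ)) * Complex.Gamma (1 + t * I) *
        z ^ (-(1 + t * I : ℂ))) := by
    intro t
    rw [DP, Finset.sum_mul, Finset.sum_mul]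
    exact Finset.sum_congr rfl fun n _ => by ring
  constructor
  · simp only [hsum]
    exact integrable_finsetSum _ fun n hn => (hterm n hn).1
  · simp only [hsum]
    rw [integral_finsetSum _ fun n hn => (hterm n hn).1, Finset.mul_sum, EP]
    exact Finset.sum_congr rfl fun n hn => (hterm n hn).2

/-- **Row RAYX.** -/
theorem rayx (hG : GAMIStatement) (hP : PLCStatement) (hB : GAMBStatement) : RAYXStatement := by
  obtain ⟨C, hC, hGam⟩ := hB
  refine ⟨C ^ 2, by positivity, fun N c κ φ hκ0 hκ1 hφ => ?_⟩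
  have hφ1 : |φ| < Real.pi / 2 := by linarith
  obtain ⟨hφ2, hφ3⟩ := abs_lt.1 hφ1
  have hpi := Real.pi_pos
  have hcos : 0 < Real.cos φ := Real.cos_pos_of_mem_Ioo ⟨by linarith, hφ3⟩
  set g : ℝ → ℂ := fun w => DP c N w * Complex.Gamma (1 + w * I) * Complex.exp (φ * w)
    with hg
  have hzre : ∀ x : ℝ, 0 < ((Real.exp (-x) : ℝ) * Complex.exp (φ * I) : ℂ).re := by
    intro x
    rw [Complex.re_ofReal_mul, Complex.exp_ofReal_mul_I_re]
    positivity
  -- integrability of `g`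
  have hgi : Integrable g := by
    have h1 := (ep_mellin hG N c (hzre 0)).1
    have h2 := h1.const_mul (Complex.exp (φ * I))
    refine h2.congr (Filter.Eventually.of_forall fun t => ?_)
    simp only [hg]
    rw [ray_cpow 0 φ t (by linarith) (by linarith)]
    have e1 : Complex.exp (φ * I) * Complex.exp ((0 : ℝ) - φ * I) = 1 := by
      rw [← Complex.exp_add, Complex.ofReal_zero, zero_sub, add_neg_cancel,
        Complex.exp_zero]
    have e2 : Complex.exp ((0 : ℝ) * t * I) = 1 := by simp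
    rw [e2]
    linear_combination (DP c N t * Complex.Gamma (1 + t * I) * Complex.exp (φ * t)) * e1
  -- the value of `E`
  have hE : ∀ x : ℝ, EP c N ((Real.exp (-x) : ℝ) * Complex.exp (φ * I)) =
      (1 / (2 * Real.pi) : ℂ) * (Complex.exp (x - φ * I) *
        ∫ w : ℝ, g w * Complex.exp (x * w * I)) := by
    intro x
    rw [(ep_mellin hG N c (hzre x)).2]
    congr 1
    rw [← integral_const_mul]
    refine integral_congr_ae (Filter.Eventually.of_forall fun t => ?_)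
    simp only [hg]
    rw [ray_cpow x φ t (by linarith) (by linarith)]
    ring
  have hn : ∀ x : ℝ, ‖EP c N ((Real.exp (-x) : ℝ) * Complex.exp (φ * I))‖ ^ 2 =
      1 / (4 * Real.pi ^ 2) * Real.exp (2 * x) *
        ‖∫ w : ℝ, g w * Complex.exp (x * w * I)‖ ^ 2 := by
    intro x
    rw [hE x, norm_mul, norm_mul, Complex.norm_exp]
    have e1 : ‖(1 / (2 * Real.pi) : ℂ)‖ = 1 / (2 * Real.pi) := by
      rw [norm_div, norm_one, norm_mul, Complex.norm_real, Real.norm_of_nonneg hpi.le]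
      norm_num
    have e2 : ((x - φ * I : ℂ)).re = x := by
      simp
    rw [e1, e2]
    have e3 : Real.exp (2 * x) = Real.exp x ^ 2 := by
      rw [← Real.exp_nat_mul]
      congr 1
    rw [e3]
    generalize ‖∫ w : ℝ, g w * Complex.exp (x * w * I)‖ = J
    field_simp
    ring
  -- change of variables
  have hcv : ∫⁻ r in Ioi (0 : ℝ), ENNReal.ofReal (‖EP c N (r * Complex.exp (φ * I))‖ ^ 2 * r)
      = ∫⁻ x : ℝ, ENNReal.ofReal (1 / (4 * Real.pi ^ 2)) *
        ENNReal.ofReal (‖∫ w : ℝ, g w * Complex.exp (x * w * I)‖ ^ 2) := by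
    rw [← image_exp_neg, lintegral_image_eq_lintegral_abs_deriv_mul MeasurableSet.univ
      (f' := fun x => -Real.exp (-x)), Measure.restrict_univ]
    · refine lintegral_congr fun x => ?_
      rw [abs_neg, abs_of_pos (Real.exp_pos _), ← ENNReal.ofReal_mul (Real.exp_pos _).le,
        ← ENNReal.ofReal_mul (by positivity), hn x]
      congr 1
      have e4 : Real.exp (-x) * Real.exp (2 * x) * Real.exp (-x) = 1 := by
        rw [← Real.exp_add, ← Real.exp_add, Real.exp_eq_one_iff]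
        ring
      generalize ‖∫ w : ℝ, g w * Complex.exp (x * w * I)‖ = J
      linear_combination (1 / (4 * Real.pi ^ 2) * J ^ 2) * e4
    · intro x _
      have h7 : HasDerivAt (fun x : ℝ => Real.exp (-x)) (-Real.exp (-x)) x := by
        have h8 := (hasDerivAt_neg x).exp
        simpa using h8
      exact h7.hasDerivWithinAt
    · intro x _ y _ hxy
      have := Real.exp_injective hxy
      linarith
  rw [hcv, lintegral_const_mul' _ _ ENNReal.ofReal_ne_top]
  refine (mul_le_mul_right (hP g hgi) _).trans ?_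
  have e5 : ∀ w : ℝ, ‖g w‖ ^ 2 ≤ C ^ 2 * (‖DP c N w‖ ^ 2 *
      ((1 + |w|) * Real.exp (-(2 * κ * |w|)))) := by
    intro w
    have h1 : ‖Complex.Gamma (1 + w * I)‖ ≤ C * (1 + |w|) ^ ((1 : ℝ) - 1 / 2) *
        Real.exp (-(Real.pi / 2 * |w|)) := by
      have h2 := hGam 1 w (by norm_num) (by norm_num)
      rwa [Complex.ofReal_one] at h2
    have h3 : ‖Complex.Gamma (1 + w * I)‖ ^ 2 ≤ C ^ 2 * (1 + |w|) * Real.exp (-(Real.pi * |w|)) := by
      have h4 := pow_le_pow_left₀ (norm_nonneg _) h1 2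
      have h5 : ((1 + |w|) ^ ((1 : ℝ) - 1 / 2)) ^ 2 = 1 + |w| := by
        rw [← Real.rpow_natCast, ← Real.rpow_mul (by positivity)]
        norm_num
      have h6 : Real.exp (-(Real.pi / 2 * |w|)) ^ 2 = Real.exp (-(Real.pi * |w|)) := by
        rw [← Real.exp_nat_mul]
        congr 1
        push_cast
        ring
      rw [mul_pow, mul_pow, h5, h6] at h4
      exact h4
    have h7 : ‖Complex.exp (φ * w)‖ ^ 2 ≤ Real.exp (2 * (Real.pi / 2 - κ) * |w|) := by
      rw [Complex.norm_exp, ← Real.exp_nat_mul]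
      apply Real.exp_le_exp.2
      have h8 : ((φ : ℂ) * w).re = φ * w := by simp
      rw [h8]
      have h9 : φ * w ≤ |φ| * |w| := by
        rw [← abs_mul]
        exact le_abs_self _
      have h10 : |φ| * |w| ≤ (Real.pi / 2 - κ) * |w| :=
        mul_le_mul_of_nonneg_right hφ (abs_nonneg _)
      push_cast
      nlinarith
    have h11 : Real.exp (-(Real.pi * |w|)) * Real.exp (2 * (Real.pi / 2 - κ) * |w|)
        = Real.exp (-(2 * κ * |w|)) := by
      rw [← Real.exp_add]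
      congr 1
      ring
    have hnn : ‖g w‖ ^ 2 = ‖DP c N w‖ ^ 2 * (‖Complex.Gamma (1 + w * I)‖ ^ 2 *
        ‖Complex.exp (φ * w)‖ ^ 2) := by
      simp only [hg]
      rw [norm_mul, norm_mul]
      ring
    rw [hnn]
    have h12 : ‖Complex.Gamma (1 + w * I)‖ ^ 2 * ‖Complex.exp (φ * w)‖ ^ 2 ≤
        (C ^ 2 * (1 + |w|) * Real.exp (-(Real.pi * |w|))) *
          Real.exp (2 * (Real.pi / 2 - κ) * |w|) :=
      mul_le_mul h3 h7 (by positivity) (by positivity)
    calc ‖DP c N w‖ ^ 2 * (‖Complex.Gamma (1 + w * I)‖ ^ 2 * ‖Complex.exp (φ * w)‖ ^ 2)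
        ≤ ‖DP c N w‖ ^ 2 * ((C ^ 2 * (1 + |w|) * Real.exp (-(Real.pi * |w|))) *
          Real.exp (2 * (Real.pi / 2 - κ) * |w|)) :=
          mul_le_mul_of_nonneg_left h12 (by positivity)
      _ = C ^ 2 * (‖DP c N w‖ ^ 2 * ((1 + |w|) *
          (Real.exp (-(Real.pi * |w|)) * Real.exp (2 * (Real.pi / 2 - κ) * |w|)))) := by ring
      _ = _ := by rw [h11]
  have e6 : ∫⁻ w : ℝ, ENNReal.ofReal (‖g w‖ ^ 2) ≤ ENNReal.ofReal (C ^ 2) *
      ∫⁻ t : ℝ, ENNReal.ofReal (‖DP c N t‖ ^ 2 * ((1 + |t|) * Real.exp (-(2 * κ * |t|)))) := by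
    rw [← lintegral_const_mul' _ _ ENNReal.ofReal_ne_top]
    refine lintegral_mono fun w => ?_
    rw [← ENNReal.ofReal_mul (by positivity)]
    exact ENNReal.ofReal_le_ofReal (e5 w)
  have e7 : ENNReal.ofReal (1 / (4 * Real.pi ^ 2)) * ENNReal.ofReal (2 * Real.pi) ≤ 1 := by
    rw [← ENNReal.ofReal_mul (by positivity), ← ENNReal.ofReal_one]
    apply ENNReal.ofReal_le_ofReal
    have h2 : 1 / (4 * Real.pi ^ 2) * (2 * Real.pi) = 1 / (2 * Real.pi) := by
      field_simp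
      norm_num
    rw [h2, div_le_one (by positivity)]
    have := Real.pi_gt_three
    linarith
  calc ENNReal.ofReal (1 / (4 * Real.pi ^ 2)) * (ENNReal.ofReal (2 * Real.pi) *
        ∫⁻ w : ℝ, ENNReal.ofReal (‖g w‖ ^ 2))
      = (ENNReal.ofReal (1 / (4 * Real.pi ^ 2)) * ENNReal.ofReal (2 * Real.pi)) *
        ∫⁻ w : ℝ, ENNReal.ofReal (‖g w‖ ^ 2) := by rw [mul_assoc]
    _ ≤ 1 * ∫⁻ w : ℝ, ENNReal.ofReal (‖g w‖ ^ 2) := by gcongr
    _ ≤ _ := by rw [one_mul]; exact e6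

end Pool.Agent.Lib.MP_6bc78b_nt.GP.H42
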